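import Mathlib

/-!
# Lipschitz Baumgartner axioms: definitions and the basic construction of `ℵ₁`-dense sets
-/

set_option autoImplicit false

namespace Pool.Agent.Q307.Lip

open Cardinal Set Topology

/-- `f : Z → Z`, where `Z` is the space of all sequences of elements of `α`, is Lipschitz with
constant `1`: if `x` and `y` agree below `k`, then `f x` and `f y` agree below `k`. -/
def IsLip {α : Type} (f : (ℕ → α) → (ℕ → α)) : Prop :=
  ∀ (k : ℕ) (x y : ℕ → α), (∀ i < k, x i = y i) → ∀ i < k, f x i = f y i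

/-- `A` is `ℵ₁`-dense: it meets every nonempty open set of the product topology in exactly `ℵ₁`
points. -/
def AlephOneDense {α : Type} [TopologicalSpace α] (A : Set (ℕ → α)) : Prop :=
  ∀ U : Set (ℕ → α), IsOpen U → U.Nonempty → #↥(A ∩ U) = ℵ₁

/-- The weak Lipschitz Baumgartner axiom for the space of all sequences of elements of `α`. -/
def BALip (α : Type) [TopologicalSpace α] : Prop :=
  ∀ A B : Set (ℕ → α), AlephOneDense A → AlephOneDense B →
    ∃ f : (ℕ → α) → (ℕ → α), IsLip f ∧ Set.InjOn f A ∧ Set.MapsTo f A B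

/-- Equality of all but finitely many terms. -/
def EqStar {α : Type} (x y : ℕ → α) : Prop := ∃ m, ∀ n, m ≤ n → x n = y n

theorem EqStar.symm {α : Type} {x y : ℕ → α} (h : EqStar x y) : EqStar y x := by
  obtain ⟨m, hm⟩ := h
  exact ⟨m, fun n hn => (hm n hn).symm⟩

theorem EqStar.trans {α : Type} {x y z : ℕ → α} (h : EqStar x y) (h' : EqStar y z) :
    EqStar x z := by
  obtain ⟨m, hm⟩ := h
  obtain ⟨m', hm'⟩ := h'
  exact ⟨max m m', fun n hn => (hm n (le_trans (le_max_left _ _) hn)).trans
    (hm' n (le_trans (le_max_right _ _) hn))⟩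

theorem EqStar.refl {α : Type} (x : ℕ → α) : EqStar x x := ⟨0, fun _ _ => rfl⟩

/-- A sequence has only countably many finite modifications. -/
theorem countable_eqStar {α : Type} [Countable α] (x : ℕ → α) :
    {z : ℕ → α | EqStar z x}.Countable := by
  have h : {z : ℕ → α | EqStar z x} ⊆
      ⋃ m : ℕ, Set.range fun s : Fin m → α => fun n => if h : n < m then s ⟨n, h⟩ else x n := by
    intro z hz
    obtain ⟨m, hm⟩ := hz
    refine Set.mem_iUnion.2 ⟨m, fun i => z i, ?_⟩
    funext n
    by_cases h : n < m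
    · simp [h]
    · simp [h, hm n (not_lt.1 h)]
  exact (Set.countable_iUnion fun m => Set.countable_range _).mono h

/-- If `b` has countable fibres modulo finite, then the finite modifications of the members of
the range of `b` form an `ℵ₁`-dense set. -/
theorem alephOneDense_mod {α W : Type} [Countable α] [TopologicalSpace α] [DiscreteTopology α]
    (hW : #W = ℵ₁) (b : W → ℕ → α) (hb : ∀ w, {w' | EqStar (b w') (b w)}.Countable) :
    AlephOneDense {z : ℕ → α | ∃ w, EqStar z (b w)} := by
  intro U hU hne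
  apply le_antisymm
  · have h1 : ({z : ℕ → α | ∃ w, EqStar z (b w)} ∩ U) ⊆ ⋃ w : W, {z | EqStar z (b w)} := by
      rintro z ⟨⟨w, hw⟩, -⟩
      exact Set.mem_iUnion.2 ⟨w, hw⟩
    refine (Cardinal.mk_le_mk_of_subset h1).trans ?_
    refine (Cardinal.mk_iUnion_le _).trans ?_
    rw [hW]
    refine (mul_le_mul' le_rfl (ciSup_le' fun w => ?_)).trans
      (Cardinal.mul_aleph0_eq (Cardinal.aleph0_le_aleph 1)).le
    exact Cardinal.le_aleph0_iff_set_countable.2 (countable_eqStar _)
  · obtain ⟨z0, hz0⟩ := hne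
    -- a basic neighbourhood
    obtain ⟨k, hk⟩ : ∃ k : ℕ, {z : ℕ → α | ∀ i < k, z i = z0 i} ⊆ U := by
      have := (isOpen_pi_iff.1 hU) z0 hz0
      obtain ⟨I, u, hu, hI⟩ := this
      obtain ⟨k, hk⟩ : ∃ k : ℕ, ∀ i ∈ I, i < k := by
        refine ⟨I.sup id + 1, fun i hi => Nat.lt_succ_of_le ?_⟩
        exact Finset.le_sup (f := id) hi
      refine ⟨k, fun z hz => hI ?_⟩
      intro i hi
      rw [hz i (hk i hi)]
      exact (hu i hi).2
    let g : W → ↥({z : ℕ → α | ∃ w, EqStar z (b w)} ∩ U) := fun w =>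
      ⟨fun n => if n < k then z0 n else b w n, ⟨w, k, fun n hn => by simp [not_lt.2 hn]⟩,
        hk fun i hi => by simp [hi]⟩
    by_contra hlt
    rw [not_le, ← succ_aleph0, Order.lt_succ_iff] at hlt
    have hc : Countable ↥({z : ℕ → α | ∃ w, EqStar z (b w)} ∩ U) :=
      Cardinal.mk_le_aleph0_iff.1 hlt
    have hfib : ∀ y, (g ⁻¹' {y}).Countable := by
      intro y
      by_cases hy : (g ⁻¹' {y}).Nonempty
      · obtain ⟨w0, hw0⟩ := hy
        refine (hb w0).mono fun w hw => ?_
        have hgw : g w = g w0 := by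
          rw [Set.mem_preimage, Set.mem_singleton_iff] at hw hw0
          rw [hw, hw0]
        refine ⟨k, fun n hn => ?_⟩
        have := congrArg (fun t => t.1 n) hgw
        simpa [g, not_lt.2 hn] using this
      · rw [Set.not_nonempty_iff_eq_empty] at hy
        rw [hy]
        exact Set.countable_empty
    have huniv : (Set.univ : Set W).Countable := by
      have : (Set.univ : Set W) = ⋃ y, g ⁻¹' {y} := by
        ext w
        refine ⟨fun _ => Set.mem_iUnion.2 ⟨g w, rfl⟩, fun _ => Set.mem_univ _⟩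
      rw [this]
      exact Set.countable_iUnion hfib
    have hWc : #W ≤ ℵ₀ := Cardinal.mk_le_aleph0_iff.2 (Set.countable_univ_iff.1 huniv)
    rw [hW, ← succ_aleph0] at hWc
    exact absurd hWc (not_le.2 (Order.lt_succ _))

/-- If uncountably many points are mapped injectively into the modifications of the `b w`, then
the `w` which occur form an uncountable set. -/
theorem uncountable_index {α W : Type} [Countable α] (b : W → ℕ → α) {A : Set (ℕ → α)}
    (hA : ¬ A.Countable) {f : (ℕ → α) → (ℕ → α)} (hf : Set.InjOn f A)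
    (w : ∀ x ∈ A, W) (hw : ∀ x (hx : x ∈ A), EqStar (f x) (b (w x hx))) :
    ¬ {v : W | ∃ x, ∃ hx : x ∈ A, w x hx = v}.Countable := by
  intro hc
  apply hA
  have h1 : (f '' A).Countable := by
    have hsub : f '' A ⊆ ⋃ v ∈ {v : W | ∃ x, ∃ hx : x ∈ A, w x hx = v}, {z | EqStar z (b v)} := by
      rintro _ ⟨x, hx, rfl⟩
      exact Set.mem_biUnion (show w x hx ∈ {v : W | ∃ x, ∃ hx : x ∈ A, w x hx = v} from
        ⟨x, hx, rfl⟩) (hw x hx)
    exact (hc.biUnion fun v _ => countable_eqStar _).mono hsub
  exact (Set.countable_of_injective_of_countable_image hf h1)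

/-- A linear order of cardinality `ℵ₁` with countable initial segments. -/
theorem exists_omega1 : ∃ (W : Type) (_ : LinearOrder W), #W = ℵ₁ ∧
    ∀ w : W, (Set.Iic w).Countable := by
  refine ⟨(Cardinal.aleph 1).ord.ToType, inferInstance, by simp, fun w => ?_⟩
  have h1 : #(Set.Iio w) < ℵ₁ := Cardinal.mk_Iio_toType_ord_lt w
  have h2 : #(Set.Iio w) ≤ ℵ₀ := Order.lt_succ_iff.1 (h1.trans_eq succ_aleph0.symm)
  have h3 : (Set.Iio w).Countable := Cardinal.le_aleph0_iff_set_countable.1 h2
  rw [← Set.Iio_insert]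
  exact h3.insert w

/-- A family of sequences indexed by the subsets of `ℕ`, any two of which differ infinitely
often. -/
def spread {α : Type} (a b : α) (c : ℕ → Bool) : ℕ → α := fun n =>
  bif c n.unpair.1 then a else b

theorem spread_inj {α : Type} {a b : α} (hab : a ≠ b) {c c' : ℕ → Bool}
    (h : EqStar (spread a b c) (spread a b c')) : c = c' := by
  obtain ⟨m, hm⟩ := h
  funext i
  have hn : m ≤ Nat.pair i m := Nat.right_le_pair i m
  have := hm _ hn
  simp only [spread, Nat.unpair_pair] at this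
  cases h1 : c i <;> cases h2 : c' i <;> simp_all

end Pool.Agent.Q307.Lip
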