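import Mathlib

/-!
# Localisation of `ℵ₁` many functions and unions of `ℵ₁` many null sets

The easy direction of Bartoszyński's theorem: if every family of functions from `ℕ` to `ℕ` which
is indexed by `W` can be localised by a slalom of some fixed width, then the union of a family of
null sets which is indexed by `W` is null.
-/

set_option autoImplicit false

namespace Pool.Agent.Q307.Lip

open Set MeasureTheory TopologicalSpace Filter
open scoped ENNReal

/-- Every null set of reals is contained in the upper limit of a sequence of members of the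
countable algebra which is generated by a countable basis, with measures as small as we please. -/
theorem null_cover {b : ℕ → Set ℝ} (hb : IsTopologicalBasis (Set.range b)) (N : Set ℝ)
    (hN : volume N = 0) (ε : ℕ → ℝ≥0∞) (hε : ∀ n, ε n ≠ 0) :
    ∃ C : ℕ → Set ℝ, (∀ k, C k ∈ generateSetAlgebra (Set.range b)) ∧
      (∀ k, volume (C k) ≤ (k + 1) * ε k) ∧ ∀ x ∈ N, ∀ j, ∃ k, j ≤ k ∧ x ∈ C k := by
  classical
  have hU : ∀ j, ∃ U ⊇ N, IsOpen U ∧ volume U < min 1 (ε j) := fun j =>
    N.exists_isOpen_lt_of_lt _ (by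
      rw [hN]
      exact lt_min one_pos (pos_iff_ne_zero.2 (hε j)))
  choose U hNU hUo hUε using hU
  let D : ℕ → ℕ → Set ℝ := fun j i => ⋃ n ∈ (Finset.range i).filter (fun n => b n ⊆ U j), b n
  have hDU : ∀ j i, D j i ⊆ U j := by
    intro j i x hx
    obtain ⟨n, hn, hx⟩ := Set.mem_iUnion₂.1 hx
    exact (Finset.mem_filter.1 hn).2 hx
  have hDmono : ∀ j, Monotone (D j) := by
    intro j i i' hii x hx
    obtain ⟨n, hn, hx⟩ := Set.mem_iUnion₂.1 hx
    obtain ⟨h1, h2⟩ := Finset.mem_filter.1 hn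
    exact Set.mem_iUnion₂.2 ⟨n, Finset.mem_filter.2 ⟨Finset.mem_range.2
      ((Finset.mem_range.1 h1).trans_le hii), h2⟩, hx⟩
  have hDcover : ∀ j, ∀ x ∈ U j, ∃ i, x ∈ D j i := by
    intro j x hx
    obtain ⟨v, ⟨n, rfl⟩, hxv, hvU⟩ := hb.exists_subset_of_mem_open hx (hUo j)
    exact ⟨n + 1, Set.mem_iUnion₂.2 ⟨n, Finset.mem_filter.2 ⟨Finset.mem_range.2
      (Nat.lt_succ_self n), hvU⟩, hxv⟩⟩
  have hbmeas : ∀ n, MeasurableSet (b n) := fun n => (hb.isOpen ⟨n, rfl⟩).measurableSet
  have hDmeas : ∀ j i, MeasurableSet (D j i) := fun j i =>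
    Finset.measurableSet_biUnion _ fun n _ => hbmeas n
  have hDalg : ∀ j i, D j i ∈ generateSetAlgebra (Set.range b) := fun j i =>
    isSetAlgebra_generateSetAlgebra.biUnion_mem _ fun n _ =>
      self_subset_generateSetAlgebra ⟨n, rfl⟩
  have htend : ∀ j, Tendsto (fun i => volume (U j \ D j i)) atTop (nhds 0) := by
    intro j
    have h1 : (⋂ i, (U j \ D j i)) = ∅ := by
      rw [Set.eq_empty_iff_forall_notMem]
      intro x hx
      rw [Set.mem_iInter] at hx
      obtain ⟨i, hi⟩ := hDcover j x (hx 0).1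
      exact (hx i).2 hi
    have h2 := tendsto_measure_iInter_atTop (μ := volume) (s := fun i => U j \ D j i)
      (fun i => ((hUo j).measurableSet.diff (hDmeas j i)).nullMeasurableSet)
      (fun i i' hii => Set.sdiff_subset_sdiff_right (hDmono j hii))
      ⟨0, ne_top_of_le_ne_top (ne_top_of_lt (hUε j)) (measure_mono Set.sdiff_subset)⟩
    rw [h1, measure_empty] at h2
    exact h2
  have hI : ∀ j k, ∃ i, k ≤ i ∧ volume (U j \ D j i) ≤ ε k := by
    intro j k
    have h1 := (tendsto_order.1 (htend j)).2 (ε k) (pos_iff_ne_zero.2 (hε k))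
    obtain ⟨i, hi, hi'⟩ := (h1.and (eventually_ge_atTop k)).exists
    exact ⟨i, hi', hi.le⟩
  choose I hIk hIε using hI
  let E : ℕ → ℕ → Set ℝ := fun j k => if k ≤ j then ∅ else D j (I j k)
  have hEalg : ∀ j k, E j k ∈ generateSetAlgebra (Set.range b) := by
    intro j k
    by_cases h : k ≤ j
    · simp only [E, if_pos h]
      exact isSetAlgebra_generateSetAlgebra.empty_mem
    · simp only [E, if_neg h]
      exact hDalg _ _
  refine ⟨fun k => ⋃ j ∈ Finset.range (k + 1), (E j (k + 1) \ E j k), fun k => ?_, fun k => ?_,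
    fun x hx j => ?_⟩
  · exact isSetAlgebra_generateSetAlgebra.biUnion_mem _ fun j _ =>
      isSetAlgebra_generateSetAlgebra.sdiff_mem (hEalg _ _) (hEalg _ _)
  · refine (measure_biUnion_finset_le _ _).trans ?_
    have h1 : ∀ j ∈ Finset.range (k + 1), volume (E j (k + 1) \ E j k) ≤ ε k := by
      intro j hj
      have hjk : j ≤ k := Nat.lt_succ_iff.1 (Finset.mem_range.1 hj)
      have h2 : E j (k + 1) ⊆ U j := by
        intro x hx
        by_cases h : k + 1 ≤ j
        · simp [E, h] at hx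
        · simp only [E, if_neg h] at hx
          exact hDU _ _ hx
      rcases hjk.eq_or_lt with rfl | hlt
      · exact (measure_mono (Set.sdiff_subset.trans h2)).trans ((hUε j).le.trans (min_le_right _ _))
      · have h3 : E j k = D j (I j k) := by simp [E, not_le.2 hlt]
        rw [h3]
        exact (measure_mono (Set.sdiff_subset_sdiff_left h2)).trans (hIε j k)
    refine (Finset.sum_le_card_nsmul _ _ _ h1).trans ?_
    simp
  · have hxU : x ∈ U j := hNU j hx
    obtain ⟨i, hi⟩ := hDcover j x hxU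
    have hex : ∃ k, x ∈ E j k := by
      refine ⟨max i (j + 1), ?_⟩
      have : ¬ max i (j + 1) ≤ j := by
        intro h
        exact absurd ((le_max_right _ _).trans h) (by omega)
      simp only [E, if_neg this]
      exact hDmono j ((le_max_left _ _).trans (hIk j _)) hi
    obtain ⟨k, hspec, hmin⟩ : ∃ k, x ∈ E j k ∧ ∀ m < k, x ∉ E j m :=
      ⟨Nat.find hex, Nat.find_spec hex, fun m hm => Nat.find_min hex hm⟩
    have hpos : ¬ k ≤ j := by
      intro h
      simp [E, h] at hspec
    refine ⟨k - 1, by omega, ?_⟩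
    have hm : (k - 1) + 1 = k := by omega
    refine Set.mem_iUnion₂.2 ⟨j, Finset.mem_range.2 (by omega), ?_, ?_⟩
    · rw [hm]
      exact hspec
    · exact hmin _ (by omega)

/-- If all families of functions which are indexed by `W` can be localised by slaloms of some
fixed width, then the union of every family of null sets which is indexed by `W` is null. -/
theorem null_iUnion_of_localization {W : Type} (h : ℕ → ℕ)
    (hloc : ∀ g : W → ℕ → ℕ, ∃ S : ℕ → Finset ℕ, (∀ n, (S n).card ≤ h n) ∧
      ∀ w, ∃ m, ∀ n, m ≤ n → g w n ∈ S n)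
    (F : W → Set ℝ) (hF : ∀ w, volume (F w) = 0) : volume (⋃ w, F w) = 0 := by
  obtain ⟨b0, hb0c, -, hb0⟩ := exists_countable_basis ℝ
  have hne : b0.Nonempty := by
    obtain ⟨v, hv, -⟩ := hb0.exists_subset_of_mem_open (Set.mem_univ (0 : ℝ)) isOpen_univ
    exact ⟨v, hv⟩
  obtain ⟨b, rfl⟩ := hb0c.exists_eq_range hne
  have hcount : (generateSetAlgebra (Set.range b)).Countable :=
    countable_generateSetAlgebra (Set.countable_range b)
  obtain ⟨e, he⟩ := hcount.exists_eq_range ⟨_, isSetAlgebra_generateSetAlgebra.empty_mem⟩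
  -- the small numbers
  let ε : ℕ → ℝ≥0∞ := fun k => (2 : ℝ≥0∞)⁻¹ ^ k / ((h k + 1) * (k + 1))
  have hε : ∀ k, ε k ≠ 0 := by
    intro k
    refine (ENNReal.div_pos ?_ ?_).ne'
    · exact pow_ne_zero _ (by simp)
    · exact ENNReal.mul_ne_top (by simp) (by simp)
  have hC := fun w => null_cover hb0 (F w) (hF w) ε hε
  choose C hCalg hCε hCN using hC
  have hg : ∀ w k, ∃ n, e n = C w k := fun w k => by
    have := hCalg w k
    rw [he] at this
    exact this
  choose g hg using hg
  obtain ⟨S, hS, hgS⟩ := hloc g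
  let T : ℕ → Set ℝ := fun k => ⋃ c ∈ (S k).filter (fun c => volume (e c) ≤ (k + 1) * ε k), e c
  have hT : ∀ k, volume (T k) ≤ (2 : ℝ≥0∞)⁻¹ ^ k := by
    intro k
    refine (measure_biUnion_finset_le _ _).trans ?_
    refine (Finset.sum_le_card_nsmul _ _ ((k + 1) * ε k) fun c hc =>
      (Finset.mem_filter.1 hc).2).trans ?_
    rw [nsmul_eq_mul]
    have h1 : (((S k).filter (fun c => volume (e c) ≤ (k + 1) * ε k)).card : ℝ≥0∞) ≤ h k + 1 := by
      have h2 := (Finset.card_filter_le (S k) (fun c => volume (e c) ≤ (k + 1) * ε k)).trans (hS k)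
      have h3 : (((S k).filter (fun c => volume (e c) ≤ (k + 1) * ε k)).card : ℝ≥0∞) ≤ (h k : ℕ) :=
        Nat.cast_le.2 h2
      exact h3.trans le_self_add
    refine (mul_le_mul' h1 le_rfl).trans ?_
    rw [← mul_assoc]
    exact ENNReal.mul_div_le
  have hlim : volume {x | ∃ᶠ k in atTop, x ∈ T k} = 0 := by
    refine measure_setOfPred_frequently_eq_zero (p := fun k x => x ∈ T k) ?_
    refine ne_top_of_le_ne_top ?_ (ENNReal.tsum_le_tsum hT)
    rw [ENNReal.tsum_geometric]
    simp
  refine measure_mono_null ?_ hlim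
  intro x hx
  obtain ⟨w, hw⟩ := Set.mem_iUnion.1 hx
  obtain ⟨m, hm⟩ := hgS w
  rw [Set.mem_ofPred_eq, Filter.frequently_atTop]
  intro j
  obtain ⟨k, hk, hxk⟩ := hCN w x hw (max j m)
  refine ⟨k, (le_max_left _ _).trans hk, ?_⟩
  refine Set.mem_iUnion₂.2 ⟨g w k, Finset.mem_filter.2 ⟨hm k ((le_max_right _ _).trans hk), ?_⟩, ?_⟩
  · rw [hg]
    exact hCε w k
  · rw [hg]
    exact hxk

end Pool.Agent.Q307.Lip
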