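import Mathlib
import Pool.Agent.Q307.Lip.Basic
import Pool.Agent.Q307.Lip.Null

/-!
# `BA_Lip(ω^ω)` implies that `ℵ₁` many functions can be localised
-/

set_option autoImplicit false

namespace Pool.Agent.Q307.Lip

open Cardinal Set Topology

/-- The binary sequence `c`, viewed as a member of Baire space. -/
def toNat (c : ℕ → Bool) : ℕ → ℕ := fun n => bif c n then 1 else 0

theorem localization_of_ba (h : BALip ℕ) {W : Type} [LinearOrder W] (hW : #W = ℵ₁)
    (hIic : ∀ w : W, (Set.Iic w).Countable) (g : W → ℕ → ℕ) :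
    ∃ S : ℕ → Finset ℕ, (∀ n, (S n).card ≤ (n + 1) * 2 ^ (n + 1)) ∧
      ∀ w, ∃ m, ∀ n, m ≤ n → g w n ∈ S n := by
  classical
  have hunc : ∀ s : Set W, s.Countable → ∃ w, w ∉ s := by
    intro s hs
    by_contra hcon
    push Not at hcon
    have h1 : (Set.univ : Set W).Countable := hs.mono fun w _ => hcon w
    have h2 : #W ≤ ℵ₀ := Cardinal.mk_le_aleph0_iff.2 (Set.countable_univ_iff.1 h1)
    rw [hW, ← succ_aleph0] at h2
    exact absurd h2 (not_le.2 (Order.lt_succ _))
  -- injection of `W` into Cantor space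
  have hz : #W ≤ #(ℕ → Bool) := by
    have h1 : #(ℕ → Bool) = 𝔠 := by simp
    rw [h1, hW, ← succ_aleph0]
    exact Order.succ_le_of_lt Cardinal.aleph0_lt_continuum
  obtain ⟨z⟩ := (Cardinal.le_def _ _).1 hz
  -- enumerations of the initial segments
  have he : ∀ w : W, ∃ e : ℕ → W, Set.Iic w = Set.range e := fun w =>
    (hIic w).exists_eq_range ⟨w, Set.mem_Iic.2 le_rfl⟩
  choose e he using he
  -- the members of the target set
  let b : W → ℕ → ℕ := fun w n =>
    Encodable.encode (z w n, List.ofFn (fun j : Fin (n + 1) => g (e w j) n))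
  have hz' : ∀ w w', EqStar (b w) (b w') → EqStar (z w) (z w') := by
    rintro w w' ⟨m, hm⟩
    refine ⟨m, fun n hn => ?_⟩
    have := Encodable.encode_injective (hm n hn)
    exact congrArg Prod.fst this
  have hfib : ∀ w, {w' | EqStar (b w') (b w)}.Countable := by
    intro w
    have h1 : {w' | EqStar (b w') (b w)} ⊆ z ⁻¹' {y | EqStar y (z w)} := fun w' hw' =>
      hz' _ _ hw'
    exact ((countable_eqStar (z w)).preimage_of_injOn z.injective.injOn).mono h1
  have hB := alephOneDense_mod hW b hfib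
  -- the source set
  let a : W → ℕ → ℕ := fun w => toNat (z w)
  have ha : ∀ w w', EqStar (a w) (a w') → EqStar (z w) (z w') := by
    rintro w w' ⟨m, hm⟩
    refine ⟨m, fun n hn => ?_⟩
    have := hm n hn
    simp only [a, toNat] at this
    cases h1 : z w n <;> cases h2 : z w' n <;> simp_all
  have hafib : ∀ w, {w' | EqStar (a w') (a w)}.Countable := by
    intro w
    have h1 : {w' | EqStar (a w') (a w)} ⊆ z ⁻¹' {y | EqStar y (z w)} := fun w' hw' =>
      ha _ _ hw'
    exact ((countable_eqStar (z w)).preimage_of_injOn z.injective.injOn).mono h1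
  have hA := alephOneDense_mod hW a hafib
  obtain ⟨f, hf, hinj, hmaps⟩ := h _ _ hA hB
  -- the slalom of the values of `f` on Cantor space
  have hval : ∀ n, ∃ T : Finset ℕ, T.card ≤ 2 ^ (n + 1) ∧ ∀ c : ℕ → Bool, f (toNat c) n ∈ T := by
    intro n
    let F : (Fin (n + 1) → Bool) → ℕ := fun s =>
      f (toNat fun i => if h : i < n + 1 then s ⟨i, h⟩ else false) n
    refine ⟨Finset.univ.image F, ?_, fun c => ?_⟩
    · refine Finset.card_image_le.trans ?_
      simp
    · refine Finset.mem_image.2 ⟨fun i => c i, Finset.mem_univ _, ?_⟩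
      refine hf (n + 1) _ _ (fun i hi => ?_) n (Nat.lt_succ_self n)
      simp [toNat, hi]
  choose T hTcard hT using hval
  -- unboundedly many indices
  have hunb : ∀ v : W, ∃ w, v ≤ w ∧ ∃ m, ∀ n, m ≤ n → b w n ∈ T n := by
    let A0 : Set (ℕ → ℕ) := Set.range a
    have hA0 : A0 ⊆ {y : ℕ → ℕ | ∃ w, EqStar y (a w)} := by
      rintro _ ⟨w, rfl⟩
      exact ⟨w, EqStar.refl _⟩
    have hA0c : ¬ A0.Countable := by
      intro hc
      obtain ⟨w, hw⟩ := hunc (a ⁻¹' A0) (by
        refine hc.preimage_of_injOn ?_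
        intro w _ w' _ hww
        apply z.injective
        funext n
        have := congrFun hww n
        simp only [a, toNat] at this
        cases h1 : z w n <;> cases h2 : z w' n <;> simp_all)
      exact hw ⟨w, rfl⟩
    choose w hw using fun x (hx : x ∈ A0) => hmaps (hA0 hx)
    have hun := uncountable_index b hA0c (hinj.mono hA0) w hw
    intro v
    by_contra hcon
    push Not at hcon
    apply hun
    refine (hIic v).mono ?_
    rintro u ⟨x, hx, rfl⟩
    by_contra hlt
    rw [Set.mem_Iic, not_le] at hlt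
    obtain ⟨m, hm⟩ := hw x hx
    obtain ⟨n, hn, hn'⟩ := hcon _ hlt.le m
    apply hn'
    rw [← hm n hn]
    obtain ⟨w', rfl⟩ := hx
    exact hT n _
  -- the slalom
  let dec : ℕ → ℕ → ℕ := fun j c => ((Encodable.decode (α := Bool × List ℕ) c).getD
    (false, [])).2.getD j 0
  have hdec : ∀ w n j, j ≤ n → dec j (b w n) = g (e w j) n := by
    intro w n j hj
    simp only [dec, b, Encodable.encodek, Option.getD_some]
    rw [List.getD_eq_getElem _ _ (by simpa using Nat.lt_succ_of_le hj), List.getElem_ofFn]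
  refine ⟨fun n => (Finset.range (n + 1)).biUnion fun j => (T n).image (dec j), fun n => ?_,
    fun v => ?_⟩
  · refine Finset.card_biUnion_le.trans ?_
    refine (Finset.sum_le_card_nsmul _ _ (2 ^ (n + 1)) fun j _ =>
      Finset.card_image_le.trans (hTcard n)).trans ?_
    simp
  · obtain ⟨w, hvw, m, hm⟩ := hunb v
    obtain ⟨j, hj⟩ : v ∈ Set.range (e w) := by
      rw [← he w]
      exact hvw
    refine ⟨max m j, fun n hn => ?_⟩
    have h1 := hm n ((le_max_left _ _).trans hn)
    have h2 : j ≤ n := (le_max_right _ _).trans hn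
    refine Finset.mem_biUnion.2 ⟨j, Finset.mem_range.2 (Nat.lt_succ_of_le h2), ?_⟩
    refine Finset.mem_image.2 ⟨b w n, h1, ?_⟩
    rw [hdec w n j h2, hj]

/-- The least number of null sets of reals whose union is not null. -/
noncomputable def addNull : Cardinal.{0} :=
  sInf {κ | ∃ F : Set (Set ℝ), #F = κ ∧ (∀ N ∈ F, MeasureTheory.volume N = 0) ∧
    MeasureTheory.volume (⋃₀ F) ≠ 0}

theorem addNull_of_ba (h : BALip ℕ) : ℵ₁ < addNull := by
  obtain ⟨W, _, hW, hIic⟩ := exists_omega1
  have hne : {κ : Cardinal.{0} | ∃ F : Set (Set ℝ), #F = κ ∧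
      (∀ N ∈ F, MeasureTheory.volume N = 0) ∧ MeasureTheory.volume (⋃₀ F) ≠ 0}.Nonempty := by
    refine ⟨_, Set.range (fun x : ℝ => ({x} : Set ℝ)), rfl, ?_, ?_⟩
    · rintro _ ⟨x, rfl⟩
      exact Real.volume_singleton
    · have : ⋃₀ Set.range (fun x : ℝ => ({x} : Set ℝ)) = Set.univ := by
        ext x
        simp
      rw [this]
      simp
  by_contra hcon
  rw [not_lt] at hcon
  obtain ⟨F, hF, hnull, hunion⟩ := csInf_mem hne
  have hle : #F ≤ #W := by
    rw [hW]
    exact hF.le.trans hcon
  apply hunion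
  obtain ⟨i⟩ := (Cardinal.le_def _ _).1 hle
  classical
  let G : W → Set ℝ := fun w => if h : ∃ N : F, i N = w then (h.choose : Set ℝ) else ∅
  have hG : ∀ w, MeasureTheory.volume (G w) = 0 := by
    intro w
    by_cases h : ∃ N : F, i N = w
    · simp only [G, dif_pos h]
      exact hnull _ h.choose.2
    · simp only [G, dif_neg h]
      simp
  refine MeasureTheory.measure_mono_null ?_ (null_iUnion_of_localization
    (fun n => (n + 1) * 2 ^ (n + 1)) (fun g => localization_of_ba h hW hIic g) G hG)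
  rintro x ⟨N, hN, hx⟩
  refine Set.mem_iUnion.2 ⟨i ⟨N, hN⟩, ?_⟩
  have h1 : ∃ N' : F, i N' = i ⟨N, hN⟩ := ⟨_, rfl⟩
  simp only [G, dif_pos h1]
  have h2 := i.injective h1.choose_spec
  rw [h2]
  exact hx

end Pool.Agent.Q307.Lip
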