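import Mathlib
import Pool.Agent.Q307.Lip.Basic

/-!
# The weak Lipschitz Baumgartner axiom implies `2^ℵ₀ = 2^ℵ₁`
-/

set_option autoImplicit false

namespace Pool.Agent.Q307.Lip

open Cardinal Set Topology

/-- There are at most continuum many Lipschitz maps. -/
theorem mk_lip_le (α : Type) [Countable α] [Nonempty α] :
    #{f : (ℕ → α) → (ℕ → α) // IsLip f} ≤ 𝔠 := by
  obtain ⟨a⟩ := ‹Nonempty α›
  have hcard : #((Σ m : ℕ, (Fin m → α)) → (ℕ → α)) ≤ 𝔠 := by
    have h1 : #(ℕ → α) ≤ 𝔠 := by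
      rw [← Cardinal.power_def, Cardinal.mk_nat]
      refine (Cardinal.power_le_power_right (Cardinal.mk_le_aleph0 (α := α))).trans ?_
      simp
    rw [← Cardinal.power_def]
    refine (Cardinal.power_le_power_right h1).trans ?_
    refine (Cardinal.power_le_power_left (by simp [Cardinal.continuum_ne_zero])
      (Cardinal.mk_le_aleph0 (α := Σ m : ℕ, (Fin m → α)))).trans ?_
    simp
  refine le_trans (Cardinal.mk_le_of_injective (f := fun f : {f : (ℕ → α) → (ℕ → α) // IsLip f} =>
    fun s : (Σ m : ℕ, (Fin m → α)) => f.1 fun n => if h : n < s.1 then s.2 ⟨n, h⟩ else a) ?_) hcard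
  intro f f' h
  apply Subtype.ext
  funext x n
  have h2 := congrFun (congrFun h ⟨n + 1, fun i => x i⟩) n
  have e1 := f.2 (n + 1) x (fun j => if h : j < n + 1 then x j else a)
    (fun i hi => by simp [hi]) n (Nat.lt_succ_self n)
  have e2 := f'.2 (n + 1) x (fun j => if h : j < n + 1 then x j else a)
    (fun i hi => by simp [hi]) n (Nat.lt_succ_self n)
  rw [e1, e2]
  simpa using h2

theorem powers_of_ba (α : Type) [Countable α] [Nontrivial α] [TopologicalSpace α]
    [DiscreteTopology α] (h : BALip α) : (2 : Cardinal.{0}) ^ ℵ₀ = 2 ^ ℵ₁ := by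
  obtain ⟨a, b, hab⟩ := exists_pair_ne α
  apply le_antisymm
  · exact Cardinal.power_le_power_left two_ne_zero (Cardinal.aleph0_le_aleph 1)
  -- the index set
  obtain ⟨W, _, hW, hIio⟩ := exists_omega1
  have hunc : ¬ Countable W := by
    intro hc
    have : #W ≤ ℵ₀ := Cardinal.mk_le_aleph0_iff.2 hc
    rw [hW, ← succ_aleph0] at this
    exact absurd this (not_le.2 (Order.lt_succ _))
  -- the codes
  let D : Type := Σ w : W, Set (Set.Iic w)
  have hD : #D ≤ #(ℕ → Bool) := by
    have h1 : #(ℕ → Bool) = 𝔠 := by simp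
    rw [h1]
    show #(Σ w : W, Set (Set.Iic w)) ≤ 𝔠
    rw [Cardinal.mk_sigma]
    refine (Cardinal.sum_le_mk_mul_iSup _).trans ?_
    refine (mul_le_mul' (hW.le.trans ?_) (ciSup_le' (a := 𝔠) fun w => ?_)).trans
      Cardinal.continuum_mul_self.le
    · rw [← succ_aleph0]
      exact Order.succ_le_of_lt Cardinal.aleph0_lt_continuum
    · rw [Cardinal.mk_set, ← Cardinal.two_power_aleph0]
      exact Cardinal.power_le_power_left two_ne_zero
        (Cardinal.le_aleph0_iff_set_countable.2 (hIio w))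
  obtain ⟨e⟩ := (Cardinal.le_def _ _).1 hD
  let β : D → ℕ → α := fun d => spread a b (e d)
  have hβ : ∀ d d', EqStar (β d) (β d') → d = d' := fun d d' hd => e.injective (spread_inj hab hd)
  let code : Set W → W → D := fun X w => ⟨w, {v | v.1 ∈ X}⟩
  let bX : Set W → W → ℕ → α := fun X w => β (code X w)
  have hdense : ∀ X, AlephOneDense {z : ℕ → α | ∃ w, EqStar z (bX X w)} := by
    intro X
    refine alephOneDense_mod hW (bX X) fun w => ?_
    refine (Set.countable_singleton w).mono fun w' hw' => ?_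
    exact congrArg Sigma.fst (hβ _ _ hw')
  -- the domain set is one of these sets
  choose F hF hinj hmaps using fun X => h _ _ (hdense ∅) (hdense X)
  have hA : ¬ {z : ℕ → α | ∃ w, EqStar z (bX ∅ w)}.Countable := by
    intro hc
    have h1 := hdense ∅ Set.univ isOpen_univ ⟨fun _ => a, trivial⟩
    rw [Set.inter_univ] at h1
    have : #↥{z : ℕ → α | ∃ w, EqStar z (bX ∅ w)} ≤ ℵ₀ :=
      Cardinal.le_aleph0_iff_set_countable.2 hc
    rw [h1, ← succ_aleph0] at this
    exact absurd this (not_le.2 (Order.lt_succ _))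
  have hFinj : Function.Injective (fun X => (⟨F X, hF X⟩ : {f : (ℕ → α) → (ℕ → α) // IsLip f})) := by
    intro X Y hXY
    have hXY' : F X = F Y := congrArg Subtype.val hXY
    by_contra hne
    obtain ⟨δ, hδ⟩ : ∃ δ : W, ¬ (δ ∈ X ↔ δ ∈ Y) := by
      by_contra hcon
      push Not at hcon
      exact hne (Set.ext hcon)
    choose w hw using fun x (hx : x ∈ {z : ℕ → α | ∃ w, EqStar z (bX ∅ w)}) => hmaps X hx
    refine uncountable_index (bX X) hA (hinj X) w hw ?_
    refine (hIio δ).mono ?_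
    rintro v ⟨x, hx, rfl⟩
    obtain ⟨w', hw'⟩ := hmaps Y hx
    rw [← hXY'] at hw'
    have h1 := hβ _ _ ((hw x hx).symm.trans hw')
    by_contra hlt
    rw [Set.mem_Iic, not_le] at hlt
    have h2 : w x hx = w' := congrArg Sigma.fst h1
    subst h2
    have h3 : ({v | v.1 ∈ X} : Set (Set.Iic (w x hx))) = {v | v.1 ∈ Y} := by
      have := (Sigma.mk.inj_iff.1 h1).2
      exact eq_of_heq this
    have h4 : (⟨δ, hlt.le⟩ : Set.Iic (w x hx)) ∈ ({v | v.1 ∈ X} : Set (Set.Iic (w x hx))) ↔
        (⟨δ, hlt.le⟩ : Set.Iic (w x hx)) ∈ ({v | v.1 ∈ Y} : Set (Set.Iic (w x hx))) := by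
      rw [h3]
    exact hδ h4
  have hfin := (Cardinal.mk_le_of_injective hFinj).trans (mk_lip_le α)
  rw [Cardinal.mk_set, hW] at hfin
  rw [Cardinal.two_power_aleph0]
  exact hfin

end Pool.Agent.Q307.Lip
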